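import Pool.Agent.Helper68.Cq.Natarajan

/-!
# CQ-9  Dense sets of small rank
-/

set_option autoImplicit false

open Finset Module
open scoped Classical

namespace Pool.Agent.Helper35.Cq

/-- coordinate functionals of an independent set -/
private theorem exists_coord {F : Type*} [Field F] {V : Type*} [AddCommGroup V] [Module F V]
    (B : Set V) (hB : LinearIndepOn F id B) (d : V) (hd : d ∈ B) :
    ∃ φ : V →ₗ[F] F, ∀ b ∈ B, φ b = if b = d then 1 else 0 := by
  have hd' : d ∈ hB.extend (Set.subset_univ B) := hB.subset_extend _ hd
  refine ⟨(Basis.extend hB).coord ⟨d, hd'⟩, ?_⟩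
  intro b hb
  have hb' : b ∈ hB.extend (Set.subset_univ B) := hB.subset_extend _ hb
  have h1 : (Basis.extend hB) ⟨b, hb'⟩ = b := by
    rw [Basis.extend_apply_self]
  have h2 : (Basis.extend hB).coord ⟨d, hd'⟩ b =
      (Basis.extend hB).repr ((Basis.extend hB) ⟨b, hb'⟩) ⟨d, hd'⟩ := by
    rw [h1]; rfl
  rw [h2, Basis.repr_self, Finsupp.single_apply]
  simp [Subtype.ext_iff]

theorem card_le_of_rk_le {F : Type*} [Field F] [Fintype F] {V : Type*} [AddCommGroup V]
    [Module F V] {E : Finset V} (t : ℕ) (hcl : ¬ HasClique F t (E : Set V))
    (Y : Finset V) (hYE : Y ⊆ E) (k : ℕ) (hk : rk F Y ≤ k) :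
    Y.card ≤ (k + 1) ^ t * Fintype.card F ^ (2 * t) := by
  by_contra hbig
  push Not at hbig
  apply hcl
  cases t with
  | zero =>
    exact ⟨∅, Set.empty_subset _, fun _ => 0, fun α _ _ => Subsingleton.elim _ _,
      fun i => i.elim0⟩
  | succ m =>
    obtain ⟨B0, hB0Y, hB0s, hB0i⟩ := exists_linearIndependent F (Y : Set V)
    have hfin : B0.Finite := Y.finite_toSet.subset hB0Y
    set B : Finset V := hfin.toFinset with hBdef
    have hBc : (B : Set V) = B0 := hfin.coe_toFinset
    have hBY : B ⊆ Y := by
      intro b hb
      have : b ∈ B0 := by rw [← hBc]; exact hb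
      exact hB0Y this
    have hBi : LinearIndepOn F id (B : Set V) := by
      rw [hBc]; exact hB0i
    have hBs : Submodule.span F (B : Set V) = Submodule.span F (Y : Set V) := by
      rw [hBc]; exact hB0s
    have hBcard : B.card ≤ k := by
      have h1 : Module.finrank F (Submodule.span F (B : Set V)) = B.card :=
        finrank_span_finset_eq_card hBi
      rw [hBs] at h1
      unfold rk at hk
      omega
    -- coordinates
    have hco : ∀ y : V, ∃ c : V → F, y ∈ Y → (∀ b, b ∉ B → c b = 0) ∧ ∑ b ∈ B, c b • b = y := by
      intro y
      by_cases hy : y ∈ Y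
      · have h1 : y ∈ Submodule.span F (B : Set V) := by
          rw [hBs]; exact Submodule.subset_span hy
        rw [Submodule.mem_span_finset] at h1
        obtain ⟨c, hc1, hc2⟩ := h1
        refine ⟨c, fun _ => ⟨?_, hc2⟩⟩
        intro b hb
        by_contra hcb
        exact hb (hc1 hcb)
      · exact ⟨0, fun h => absurd h hy⟩
    choose cf hcf using hco
    have hinj : Set.InjOn cf (Y : Set V) := by
      intro y hy y' hy' h
      rw [← (hcf y hy).2, ← (hcf y' hy').2, h]
    have hcard' : (Y.image cf).card = Y.card := Finset.card_image_of_injOn hinj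
    have hq : 1 ≤ Fintype.card F := Fintype.card_pos
    have hnat := natarajan (F := F) B m (Y.image cf) (by
        intro c hc i hi
        obtain ⟨y, hy, rfl⟩ := Finset.mem_image.1 hc
        exact (hcf y hy).1 i hi) (by
        rw [hcard']
        refine lt_of_le_of_lt ?_ hbig
        apply Nat.mul_le_mul
        · calc (B.card + 1) ^ m ≤ (k + 1) ^ m := Nat.pow_le_pow_left (by omega) m
            _ ≤ (k + 1) ^ (m + 1) := Nat.pow_le_pow_right (by omega) (by omega)
        · exact Nat.pow_le_pow_right hq (by omega))
    obtain ⟨D, hDB, hDc, f, g, hfg, hA⟩ := hnat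
    have hA' : ∀ A ⊆ D, ∃ y ∈ Y, ∀ d ∈ D, cf y d = if d ∈ A then f d else g d := by
      intro A hAD
      obtain ⟨c, hc, h⟩ := hA A hAD
      obtain ⟨y, hy, rfl⟩ := Finset.mem_image.1 hc
      exact ⟨y, hy, h⟩
    obtain ⟨y0, hy0, hy0c⟩ := hA' ∅ (Finset.empty_subset _)
    simp only [Finset.notMem_empty, if_false] at hy0c
    -- the special element
    obtain ⟨d0, hd0, hd0g⟩ : ∃ d0 ∈ D, g d0 = 0 → ∀ d ∈ D, g d = 0 := by
      by_cases h : ∃ d ∈ D, g d ≠ 0
      · obtain ⟨d, hd, hg⟩ := h
        exact ⟨d, hd, fun h => absurd h hg⟩
      · push Not at h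
        have hne : D.Nonempty := Finset.card_pos.1 (by omega)
        obtain ⟨d, hd⟩ := hne
        exact ⟨d, hd, fun _ => h⟩
    have hec : (D.erase d0).card = m := by
      rw [Finset.card_erase_of_mem hd0, hDc]; omega
    let e := Finset.equivFinOfCardEq hec
    let dd : Fin m → V := fun i => (e.symm i : V)
    have hddD : ∀ i, dd i ∈ D.erase d0 := fun i => (e.symm i).2
    have hddinj : Function.Injective dd := fun i j h => e.symm.injective (Subtype.ext h)
    have hddD' : ∀ i, dd i ∈ D := fun i => (Finset.mem_erase.1 (hddD i)).2
    set u : V → V := fun d => (f d - g d) • d with hu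
    set v : Fin (m + 1) → V := fun j =>
      ∑ i ∈ (univ : Finset (Fin m)).filter (fun i => i.val < j.val), u (dd i) with hv
    refine ⟨(((B \ D : Finset V) : Set V) ∪ {y0}), ?_, v, ?_, ?_⟩
    · intro x hx
      rcases hx with hx | hx
      · rw [Finset.mem_coe, Finset.mem_sdiff] at hx
        exact hYE (hBY hx.1)
      · rw [Set.mem_singleton_iff] at hx
        subst hx
        exact hYE hy0
    · -- independence
      intro α hα hspan
      -- coordinate functionals
      have hker : ∀ d ∈ D, ∀ φ : V →ₗ[F] F, (∀ b ∈ (B : Set V), φ b = if b = d then 1 else 0) →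
          ∀ z ∈ Submodule.span F ((B \ D : Finset V) : Set V), φ z = 0 := by
        intro d hd φ hφ z hz
        have : Submodule.span F ((B \ D : Finset V) : Set V) ≤ LinearMap.ker φ := by
          rw [Submodule.span_le]
          intro b hb
          rw [Finset.mem_coe, Finset.mem_sdiff] at hb
          rw [SetLike.mem_coe, LinearMap.mem_ker, hφ b hb.1, if_neg]
          rintro rfl
          exact hb.2 hd
        exact this hz
      have hsp2 : ∃ c : F, ∃ z ∈ Submodule.span F ((B \ D : Finset V) : Set V),
          ∑ i, α i • v i = c • y0 + z := by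
        rw [Set.union_singleton] at hspan
        exact Submodule.mem_span_insert.1 hspan
      obtain ⟨c, z, hz, hcz⟩ := hsp2
      have hval : ∀ d ∈ D, ∀ φ : V →ₗ[F] F, (∀ b ∈ (B : Set V), φ b = if b = d then 1 else 0) →
          φ (∑ i, α i • v i) = c * g d := by
        intro d hd φ hφ
        rw [hcz, map_add, map_smul, hker d hd φ hφ z hz, add_zero, smul_eq_mul]
        congr 1
        rw [← hy0c d hd]
        conv_lhs => rw [← (hcf y0 hy0).2]
        rw [map_sum]
        rw [Finset.sum_eq_single d]
        · rw [map_smul, hφ d (hDB hd), if_pos rfl, smul_eq_mul, mul_one]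
        · intro b hb hbd
          rw [map_smul, hφ b hb, if_neg hbd, smul_zero]
        · intro h
          exact absurd (hDB hd) h
      have hφv : ∀ d ∈ D, ∀ φ : V →ₗ[F] F, (∀ b ∈ (B : Set V), φ b = if b = d then 1 else 0) →
          ∀ j, φ (v j) = ∑ i ∈ (univ : Finset (Fin m)).filter (fun i => i.val < j.val),
            if dd i = d then (f d - g d) else 0 := by
        intro d hd φ hφ j
        rw [hv]
        simp only
        rw [map_sum]
        apply Finset.sum_congr rfl
        intro i _
        rw [hu]
        simp only
        rw [map_smul, hφ _ (hDB (hddD' i)), smul_eq_mul]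
        by_cases h : dd i = d
        · rw [if_pos h, if_pos h, mul_one, h]
        · rw [if_neg h, if_neg h, mul_zero]
      have hcg : ∀ d ∈ D, c * g d = 0 := by
        obtain ⟨φ, hφ⟩ := exists_coord (B : Set V) hBi d0 (hDB hd0)
        have h1 := hval d0 hd0 φ hφ
        have h2 : φ (∑ i, α i • v i) = 0 := by
          rw [map_sum]
          apply Finset.sum_eq_zero
          intro j _
          rw [map_smul, hφv d0 hd0 φ hφ j, Finset.sum_eq_zero, smul_zero]
          intro i _
          rw [if_neg]
          exact (Finset.mem_erase.1 (hddD i)).1
        rw [h2] at h1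
        intro d hd
        rcases mul_eq_zero.1 h1.symm with hc | hg
        · rw [hc, zero_mul]
        · rw [hd0g hg d hd, mul_zero]
      -- tail sums
      have htail : ∀ i : Fin m, ∑ j ∈ (univ : Finset (Fin (m + 1))).filter
          (fun j => i.val < j.val), α j = 0 := by
        intro i
        obtain ⟨φ, hφ⟩ := exists_coord (B : Set V) hBi (dd i) (hDB (hddD' i))
        have h1 := hval (dd i) (hddD' i) φ hφ
        rw [hcg _ (hddD' i), map_sum] at h1
        have h2 : ∀ j, φ (α j • v j) = if i.val < j.val then
            α j * (f (dd i) - g (dd i)) else 0 := by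
          intro j
          rw [map_smul, hφv _ (hddD' i) φ hφ j, smul_eq_mul]
          by_cases hij : i.val < j.val
          · rw [if_pos hij]
            congr 1
            rw [Finset.sum_eq_single i]
            · rw [if_pos rfl]
            · intro i' _ hne
              rw [if_neg]
              intro h
              exact hne (hddinj h)
            · intro h
              exact absurd (Finset.mem_filter.2 ⟨mem_univ i, hij⟩) h
          · rw [if_neg hij, Finset.sum_eq_zero, mul_zero]
            intro i' hi'
            rw [if_neg]
            intro h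
            rw [hddinj h] at hi'
            exact hij (Finset.mem_filter.1 hi').2
        simp only [h2] at h1
        rw [← Finset.sum_filter, ← Finset.sum_mul] at h1
        rcases mul_eq_zero.1 h1 with h | h
        · exact h
        · exact absurd (sub_eq_zero.1 h) (hfg _ (hddD' i))
      have hT : ∀ n : ℕ, ∑ j ∈ (univ : Finset (Fin (m + 1))).filter
          (fun j => n ≤ j.val), α j = 0 := by
        intro n
        rcases Nat.eq_zero_or_pos n with h | h
        · subst h
          simpa using hα
        · by_cases hn : n - 1 < m
          · have := htail ⟨n - 1, hn⟩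
            rw [← this]
            apply Finset.sum_congr _ (fun _ _ => rfl)
            ext j
            simp only [Finset.mem_filter, mem_univ, true_and]
            omega
          · apply Finset.sum_eq_zero
            intro j hj
            rw [Finset.mem_filter] at hj
            have := j.2
            omega
      funext j
      have h1 := hT j.val
      have h2 := hT (j.val + 1)
      have h3 : (univ : Finset (Fin (m + 1))).filter (fun i => j.val ≤ i.val) =
          insert j ((univ : Finset (Fin (m + 1))).filter (fun i => j.val + 1 ≤ i.val)) := by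
        ext i
        simp only [Finset.mem_filter, mem_univ, true_and, Finset.mem_insert, Fin.ext_iff]
        omega
      rw [h3, Finset.sum_insert (by simp), h2, add_zero] at h1
      exact h1
    · -- edges
      have key : ∀ a b : Fin (m + 1), a < b → ∃ y ∈ Y,
          y - (v b - v a) ∈ Submodule.span F (((B \ D : Finset V) : Set V) ∪ {y0}) := by
        intro a b hab
        set I := (univ : Finset (Fin m)).filter (fun i => a.val ≤ i.val ∧ i.val < b.val) with hI
        obtain ⟨y, hy, hyc⟩ := hA' (I.image dd) (by
          intro d hd
          obtain ⟨i, _, rfl⟩ := Finset.mem_image.1 hd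
          exact hddD' i)
        refine ⟨y, hy, ?_⟩
        have h1 : v b - v a = ∑ i ∈ I, u (dd i) := by
          rw [hv]
          simp only
          rw [sub_eq_iff_eq_add]
          rw [← Finset.sum_union]
          · apply Finset.sum_congr _ (fun _ _ => rfl)
            ext i
            simp only [hI, Finset.mem_filter, mem_univ, true_and, Finset.mem_union]
            have : a.val < b.val := hab
            omega
          · rw [Finset.disjoint_left]
            intro i hi hi'
            rw [hI, Finset.mem_filter] at hi
            rw [Finset.mem_filter] at hi'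
            omega
        have h2 : ∑ i ∈ I, u (dd i) = ∑ d ∈ D, if d ∈ I.image dd then u d else 0 := by
          rw [← Finset.sum_filter]
          have h3 : D.filter (fun d => d ∈ I.image dd) = I.image dd := by
            ext d
            rw [Finset.mem_filter]
            constructor
            · exact fun h => h.2
            · intro h
              refine ⟨?_, h⟩
              obtain ⟨i, _, rfl⟩ := Finset.mem_image.1 h
              exact hddD' i
          rw [h3, Finset.sum_image (fun i _ j _ h => hddinj h)]
        have h3 : y - y0 = ∑ b ∈ B \ D, (cf y b - cf y0 b) • b + (v b - v a) := by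
          conv_lhs => rw [← (hcf y hy).2, ← (hcf y0 hy0).2]
          rw [← Finset.sum_sub_distrib, h1, h2, ← Finset.sum_sdiff hDB]
          congr 1
          · apply Finset.sum_congr rfl
            intro b _
            rw [sub_smul]
          · apply Finset.sum_congr rfl
            intro d hd
            rw [← sub_smul, hyc d hd, hy0c d hd]
            by_cases h : d ∈ I.image dd
            · rw [if_pos h, if_pos h]
            · rw [if_neg h, if_neg h, sub_self, zero_smul]
        have h4 : y - (v b - v a) = y0 + ∑ b ∈ B \ D, (cf y b - cf y0 b) • b := by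
          have : y = y0 + (∑ b ∈ B \ D, (cf y b - cf y0 b) • b + (v b - v a)) := by
            rw [← h3]; abel
          conv_lhs => rw [this]
          abel
        rw [h4]
        apply Submodule.add_mem
        · exact Submodule.subset_span (Or.inr rfl)
        · apply Submodule.sum_mem
          intro b hb
          exact Submodule.smul_mem _ _ (Submodule.subset_span (Or.inl hb))
      intro i j hij
      rcases lt_or_gt_of_ne hij with h | h
      · obtain ⟨y, hy, hy2⟩ := key i j h
        refine ⟨y, hYE hy, -1, by simp, ?_⟩
        have : y - (-1 : F) • (v i - v j) = y - (v j - v i) := by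
          rw [neg_smul, one_smul, neg_sub]
        rw [this]
        exact hy2
      · obtain ⟨y, hy, hy2⟩ := key j i h
        refine ⟨y, hYE hy, 1, one_ne_zero, ?_⟩
        rw [one_smul]
        exact hy2

end Pool.Agent.Helper35.Cq
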