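import Pool.Agent.Helper35.Cq.Defs

/-!
# CQ-8  Natarajan's lemma
-/

set_option autoImplicit false

open Finset Module
open scoped Classical

namespace Pool.Agent.Helper35.Cq

private theorem card_le_image_add {F : Type*} [Field F] [Fintype F] {ι : Type*}
    (Y : Finset (ι → F)) (i : ι) :
    Y.card ≤ (Y.image (fun y => Function.update y i 0)).card +
      ∑ p ∈ ((univ : Finset (F × F)).filter fun p => p.1 ≠ p.2),
        ((Y.image (fun y => Function.update y i 0)).filter
          (fun z => Function.update z i p.1 ∈ Y ∧ Function.update z i p.2 ∈ Y)).card := by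
  set Y1 := Y.image (fun y => Function.update y i 0) with hY1
  set P := ((univ : Finset (F × F)).filter fun p => p.1 ≠ p.2) with hP
  -- fibres
  have h1 : Y.card = ∑ z ∈ Y1, (Y.filter (fun y => Function.update y i 0 = z)).card := by
    apply Finset.card_eq_sum_card_fiberwise
    intro y hy
    exact Finset.mem_coe.2 (Finset.mem_image_of_mem _ hy)
  have h2 : ∀ z ∈ Y1, (Y.filter (fun y => Function.update y i 0 = z)).card =
      ((univ : Finset F).filter (fun a => Function.update z i a ∈ Y)).card := by
    intro z hz
    obtain ⟨y0, hy0, rfl⟩ := Finset.mem_image.1 hz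
    apply Finset.card_bij (fun y _ => y i)
    · intro y hy
      rw [Finset.mem_filter] at hy
      rw [Finset.mem_filter]
      refine ⟨mem_univ _, ?_⟩
      rw [← hy.2]
      simpa using hy.1
    · intro y hy y' hy' h
      rw [Finset.mem_filter] at hy hy'
      funext j
      by_cases hj : j = i
      · rw [hj]; exact h
      · have := congrFun (hy.2.trans hy'.2.symm) j
        simpa [Function.update_of_ne hj] using this
    · intro a ha
      rw [Finset.mem_filter] at ha
      refine ⟨Function.update y0 i a, ?_, by simp⟩
      rw [Finset.mem_filter]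
      refine ⟨?_, by simp⟩
      simpa using ha.2
  have h3 : ∑ p ∈ P, (Y1.filter
      (fun z => Function.update z i p.1 ∈ Y ∧ Function.update z i p.2 ∈ Y)).card =
      ∑ z ∈ Y1, (P.filter
      (fun p => Function.update z i p.1 ∈ Y ∧ Function.update z i p.2 ∈ Y)).card := by
    simp only [Finset.card_filter]
    rw [Finset.sum_comm]
  rw [h3, h1, Finset.card_eq_sum_ones Y1, ← Finset.sum_add_distrib]
  apply Finset.sum_le_sum
  intro z hz
  rw [h2 z hz]
  set L := ((univ : Finset F).filter (fun a => Function.update z i a ∈ Y)) with hL
  have h4 : L.offDiag ⊆ (P.filter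
      (fun p => Function.update z i p.1 ∈ Y ∧ Function.update z i p.2 ∈ Y)) := by
    intro p hp
    rw [Finset.mem_offDiag] at hp
    rw [Finset.mem_filter, hP, Finset.mem_filter]
    refine ⟨⟨mem_univ _, hp.2.2⟩, ?_, ?_⟩
    · exact (Finset.mem_filter.1 hp.1).2
    · exact (Finset.mem_filter.1 hp.2.1).2
  have h5 := Finset.card_le_card h4
  rw [Finset.offDiag_card] at h5
  rcases Nat.lt_or_ge L.card 2 with h | h
  · omega
  · have h6 : 2 * L.card ≤ L.card * L.card := Nat.mul_le_mul_right _ h
    omega

/-- Natarajan's lemma (multi-valued Sauer-Shelah). -/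
theorem natarajan {F : Type*} [Field F] [Fintype F] {ι : Type*} (S : Finset ι) (m : ℕ)
    (Y : Finset (ι → F)) (hY : ∀ y ∈ Y, ∀ i, i ∉ S → y i = 0)
    (hcard : (S.card + 1) ^ m * Fintype.card F ^ (2 * m) < Y.card) :
    ∃ D ⊆ S, D.card = m + 1 ∧ ∃ f g : ι → F, (∀ d ∈ D, f d ≠ g d) ∧
      ∀ A ⊆ D, ∃ y ∈ Y, ∀ d ∈ D, y d = if d ∈ A then f d else g d := by
  induction S using Finset.induction_on generalizing m Y with
  | empty =>
    exfalso
    have h1 : Y ⊆ {0} := by
      intro y hy
      rw [Finset.mem_singleton]
      funext j
      exact hY y hy j (by simp)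
    have h2 := Finset.card_le_card h1
    rw [Finset.card_singleton] at h2
    have h3 : 0 < Fintype.card F ^ (2 * m) := Nat.pow_pos Fintype.card_pos
    simp at hcard
    omega
  | insert i S hi ih =>
    rw [Finset.card_insert_of_notMem hi] at hcard
    set Y1 := Y.image (fun y => Function.update y i 0) with hY1
    set P := ((univ : Finset (F × F)).filter fun p => p.1 ≠ p.2) with hP
    have hY1S : ∀ y ∈ Y1, ∀ j, j ∉ S → y j = 0 := by
      intro y hy j hj
      obtain ⟨y0, hy0, rfl⟩ := Finset.mem_image.1 hy
      by_cases hji : j = i
      · simp [hji]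
      · simp only [Function.update_of_ne hji]
        apply hY y0 hy0
        simp [hji, hj]
    have hq : 1 ≤ Fintype.card F := Fintype.card_pos
    by_cases hbig : (S.card + 1) ^ m * Fintype.card F ^ (2 * m) < Y1.card
    · obtain ⟨D, hDS, hDc, f, g, hfg, hA⟩ := ih m Y1 hY1S hbig
      refine ⟨D, hDS.trans (Finset.subset_insert _ _), hDc, f, g, hfg, ?_⟩
      intro A hAD
      obtain ⟨y, hy, hyA⟩ := hA A hAD
      obtain ⟨y0, hy0, rfl⟩ := Finset.mem_image.1 hy
      refine ⟨y0, hy0, fun d hd => ?_⟩
      have hdi : d ≠ i := fun h => hi (h ▸ hDS hd)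
      have := hyA d hd
      simpa only [Function.update_of_ne hdi] using this
    · have hmain := card_le_image_add Y i
      rw [← hY1, ← hP] at hmain
      push Not at hbig
      cases m with
      | zero =>
        simp only [pow_zero, mul_zero, mul_one] at hcard hbig
        have h1 : 0 < ∑ p ∈ P, (Y1.filter
            (fun z => Function.update z i p.1 ∈ Y ∧ Function.update z i p.2 ∈ Y)).card := by
          omega
        obtain ⟨p, hp, hp1⟩ := Finset.exists_ne_zero_of_sum_ne_zero h1.ne'
        obtain ⟨z, hz⟩ := Finset.card_pos.1 (Nat.pos_of_ne_zero hp1)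
        rw [Finset.mem_filter] at hz
        rw [hP, Finset.mem_filter] at hp
        refine ⟨{i}, by simp, by simp, fun _ => p.1, fun _ => p.2, fun d _ => hp.2, ?_⟩
        intro A hA
        by_cases hiA : i ∈ A
        · refine ⟨_, hz.2.1, ?_⟩
          intro d hd
          rw [Finset.mem_singleton] at hd
          subst hd
          simp [hiA]
        · refine ⟨_, hz.2.2, ?_⟩
          intro d hd
          rw [Finset.mem_singleton] at hd
          subst hd
          simp [hiA]
      | succ m =>
        -- some pair has a large set
        have hex : ∃ p ∈ P, (S.card + 1) ^ m * Fintype.card F ^ (2 * m) < (Y1.filter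
            (fun z => Function.update z i p.1 ∈ Y ∧ Function.update z i p.2 ∈ Y)).card := by
          by_contra hcon
          push Not at hcon
          have h1 := Finset.sum_le_card_nsmul P _ _ hcon
          have h2 : P.card ≤ Fintype.card F ^ 2 := by
            calc P.card ≤ (univ : Finset (F × F)).card := Finset.card_filter_le _ _
              _ = Fintype.card F ^ 2 := by
                rw [Finset.card_univ, Fintype.card_prod, sq]
          rw [smul_eq_mul] at h1
          set q := Fintype.card F with hqd
          set x := S.card + 1 with hx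
          have h3 : P.card * (x ^ m * q ^ (2 * m)) ≤ q ^ 2 * (x ^ m * q ^ (2 * m)) :=
            Nat.mul_le_mul_right _ h2
          have h4 : q ^ (2 * (m + 1)) = q ^ 2 * q ^ (2 * m) := by ring
          have h5 : x ^ (m + 1) + x ^ m ≤ (x + 1) ^ (m + 1) := by
            have h6 : x ^ m ≤ (x + 1) ^ m := Nat.pow_le_pow_left (Nat.le_succ x) m
            calc x ^ (m + 1) + x ^ m = x ^ m * (x + 1) := by ring
              _ ≤ (x + 1) ^ m * (x + 1) := Nat.mul_le_mul_right _ h6
              _ = (x + 1) ^ (m + 1) := by ring
          have h7 : (x ^ (m + 1) + x ^ m) * q ^ (2 * (m + 1)) ≤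
              (x + 1) ^ (m + 1) * q ^ (2 * (m + 1)) := Nat.mul_le_mul_right _ h5
          have h8 : (x ^ (m + 1) + x ^ m) * q ^ (2 * (m + 1)) =
              x ^ (m + 1) * q ^ (2 * (m + 1)) + q ^ 2 * (x ^ m * q ^ (2 * m)) := by
            rw [h4]; ring
          omega
        obtain ⟨p, hp, hp1⟩ := hex
        obtain ⟨D, hDS, hDc, f, g, hfg, hA⟩ := ih m _ (fun y hy j hj =>
          hY1S y (Finset.mem_filter.1 hy).1 j hj) hp1
        rw [hP, Finset.mem_filter] at hp
        have hiD : i ∉ D := fun h => hi (hDS h)
        refine ⟨insert i D, Finset.insert_subset_insert _ hDS, ?_, Function.update f i p.1,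
          Function.update g i p.2, ?_, ?_⟩
        · rw [Finset.card_insert_of_notMem hiD, hDc]
        · intro d hd
          by_cases hdi : d = i
          · subst hdi; simpa using hp.2
          · rw [Function.update_of_ne hdi, Function.update_of_ne hdi]
            exact hfg d ((Finset.mem_insert.1 hd).resolve_left hdi)
        · intro A hAD
          obtain ⟨z, hz, hzA⟩ := hA (A.erase i) (by
            intro d hd
            rw [Finset.mem_erase] at hd
            exact (Finset.mem_insert.1 (hAD hd.2)).resolve_left hd.1)
          rw [Finset.mem_filter] at hz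
          by_cases hiA : i ∈ A
          · refine ⟨_, hz.2.1, ?_⟩
            intro d hd
            by_cases hdi : d = i
            · subst hdi; simp [hiA]
            · rw [Function.update_of_ne hdi, Function.update_of_ne hdi,
                Function.update_of_ne hdi,
                hzA d ((Finset.mem_insert.1 hd).resolve_left hdi)]
              simp [hdi]
          · refine ⟨_, hz.2.2, ?_⟩
            intro d hd
            by_cases hdi : d = i
            · subst hdi; simp [hiA]
            · rw [Function.update_of_ne hdi, Function.update_of_ne hdi,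
                Function.update_of_ne hdi,
                hzA d ((Finset.mem_insert.1 hd).resolve_left hdi)]
              simp [hdi]

end Pool.Agent.Helper35.Cq
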